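import Pool.Agent.Helper38.TPN.Order

/-!
# A plane model near a place
-/

set_option autoImplicit false

namespace Pool.Agent.Helper38.TPN

open Polynomial IntermediateField
open Pool.Agent.Helper16 (Place IsFunctionField algX algXF algXF_apply isFractionRing_algXF)

variable {k K : Type} [Field k] [Field K] [Algebra k K]

theorem exists_num (s y : K) (hs : Transcendental k s) [FiniteDimensional k⟮s⟯ K]
    (hy : k⟮s⟯⟮y⟯ = ⊤) (f : K) :
    ∃ (P : k[X][X]) (q : k[X]), q ≠ 0 ∧
      ev2 (algebraMap k K) s y P = aeval s q * f := by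
  let _ := algXF k s
  have := isFractionRing_algXF s hs
  have h1 : f ∈ k⟮s⟯⟮y⟯.toSubalgebra := by rw [hy]; trivial
  rw [adjoin_simple_toSubalgebra_of_isAlgebraic (Algebra.IsAlgebraic.isAlgebraic y),
    Algebra.adjoin_singleton_eq_range_aeval] at h1
  obtain ⟨g, rfl⟩ := h1
  obtain ⟨b, hb, hg⟩ := IsLocalization.integerNormalization_spec (nonZeroDivisors k[X]) g
  refine ⟨IsLocalization.integerNormalization (nonZeroDivisors k[X]) g, b,
    nonZeroDivisors.ne_zero hb, ?_⟩
  have h2 : (eval₂RingHom (algebraMap k K) s : k[X] →+* K)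
      = (algebraMap k⟮s⟯ K).comp (algebraMap k[X] k⟮s⟯) := by
    apply RingHom.ext
    intro p
    exact (algXF_apply s p).symm
  rw [ev2_apply, h2, ← eval₂_map, hg]
  change aeval y (b • g) = _
  rw [← algebraMap_smul k⟮s⟯ b g, map_smul, Algebra.smul_def]
  congr 1
  exact algXF_apply s b

theorem exists_vanishing (s y : K) (hs : Transcendental k s) [FiniteDimensional k⟮s⟯ K] :
    ∃ P : k[X][X], P ≠ 0 ∧ ev2 (algebraMap k K) s y P = 0 := by
  let _ := algXF k s
  have := isFractionRing_algXF s hs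
  have hint : IsIntegral k⟮s⟯ y := Algebra.IsIntegral.isIntegral y
  obtain ⟨b, hb, hg⟩ := IsLocalization.integerNormalization_spec (nonZeroDivisors k[X])
    (minpoly k⟮s⟯ y)
  refine ⟨IsLocalization.integerNormalization (nonZeroDivisors k[X]) (minpoly k⟮s⟯ y), ?_, ?_⟩
  · intro h
    rw [IsLocalization.integerNormalization_eq_zero_iff le_rfl] at h
    exact minpoly.ne_zero hint h
  · have h2 : (eval₂RingHom (algebraMap k K) s : k[X] →+* K)
        = (algebraMap k⟮s⟯ K).comp (algebraMap k[X] k⟮s⟯) := by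
      apply RingHom.ext
      intro p
      exact (algXF_apply s p).symm
    rw [ev2_apply, h2, ← eval₂_map, hg]
    change aeval y (b • minpoly k⟮s⟯ y) = _
    rw [← algebraMap_smul k⟮s⟯ b (minpoly k⟮s⟯ y), map_smul, minpoly.aeval, smul_zero]

theorem exists_exp_neg {x : WithZero (Multiplicative ℤ)} (h0 : x ≠ 0) (h : x ≤ 1) :
    ∃ n : ℕ, x = WithZero.exp (-(n : ℤ)) := by
  obtain ⟨n, rfl⟩ : ∃ n : ℤ, x = WithZero.exp n := ⟨WithZero.log x, (WithZero.exp_log h0).symm⟩
  rw [← WithZero.exp_zero, WithZero.exp_le_exp] at h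
  exact ⟨(-n).toNat, by rw [Int.toNat_of_nonneg (by omega), neg_neg]⟩

theorem exists_gen (s : K) (hs : Transcendental k s) [CharZero k] [FiniteDimensional k⟮s⟯ K]
    (b : Place k K) (hbs : b.val s = WithZero.exp (-1 : ℤ)) :
    ∃ y : K, k⟮s⟯⟮y⟯ = ⊤ ∧ b.val y ≤ 1 := by
  have : CharZero k⟮s⟯ := charZero_of_injective_algebraMap (algebraMap k k⟮s⟯).injective
  obtain ⟨y, hy⟩ := Field.exists_primitive_element k⟮s⟯ K
  by_cases h0 : y = 0
  · exact ⟨y, hy, by rw [h0]; simp⟩
  have hv : b.val y ≠ 0 := by simpa using h0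
  set n := WithZero.log (b.val y) with hn
  have hvy : b.val y = WithZero.exp n := (WithZero.exp_log hv).symm
  have hs0 : s ≠ 0 := by
    rintro rfl
    rw [map_zero] at hbs
    exact WithZero.exp_ne_zero hbs.symm
  refine ⟨s ^ n.toNat * y, ?_, ?_⟩
  · rw [eq_top_iff, ← hy, adjoin_simple_le_iff]
    have h1 : s ∈ k⟮s⟯⟮s ^ n.toNat * y⟯ :=
      (k⟮s⟯⟮s ^ n.toNat * y⟯).algebraMap_mem (AdjoinSimple.gen k s)
    have h2 : s ^ n.toNat * y ∈ k⟮s⟯⟮s ^ n.toNat * y⟯ := mem_adjoin_simple_self _ _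
    have h3 : (s ^ n.toNat)⁻¹ * (s ^ n.toNat * y) = y :=
      inv_mul_cancel_left₀ (pow_ne_zero _ hs0) y
    have h4 := mul_mem (inv_mem (pow_mem h1 n.toNat)) h2
    rwa [h3] at h4
  · rw [map_mul, map_pow, hbs, hvy, ← WithZero.exp_nsmul, ← WithZero.exp_add,
      ← WithZero.exp_zero, WithZero.exp_le_exp]
    have := Int.self_le_toNat n
    simp

theorem exists_common (s y : K) (hs : Transcendental k s) [FiniteDimensional k⟮s⟯ K]
    (hy : k⟮s⟯⟮y⟯ = ⊤) {ι : Type} [Fintype ι] (f : ι → K) :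
    ∃ (q : k[X]), q ≠ 0 ∧ ∀ i, ∃ P : k[X][X],
      ev2 (algebraMap k K) s y P = aeval s q * f i := by
  classical
  choose P q hq hP using fun i => exists_num s y hs hy (f i)
  refine ⟨∏ i, q i, Finset.prod_ne_zero_iff.2 fun i _ => hq i, fun i => ?_⟩
  refine ⟨P i * C (∏ j ∈ Finset.univ.erase i, q j), ?_⟩
  rw [map_mul, hP, ev2_C, ← Finset.mul_prod_erase Finset.univ q (Finset.mem_univ i), map_mul]
  change _ * aeval s _ = _
  ring

/-- The data of a plane model adapted to a place. -/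
structure Model {k : Type} [Field k] {ι : Type} (Q : k[X][X]) (a q r e : k[X])
    (P : ι → k[X][X]) (u : ι → k[X]) (ρ m N : ℕ) : Prop where
  le₁ : 2 * ρ + 1 ≤ N
  le₂ : ρ + m + 1 ≤ N
  evQ : Q.eval a = X ^ N * r
  evD : (derivative Q).eval a = X ^ ρ * e
  e0 : e.coeff 0 ≠ 0
  q0 : q.coeff 0 ≠ 0
  evP : ∀ i, (P i).eval a = X ^ (m + 1) * u i

theorem exists_model [IsAlgClosed k] [CharZero k] (hK : IsFunctionField k K) (b : Place k K)
    {ι : Type} [Fintype ι] (f : ι → K) (hf : ∀ i, b.val (f i) < 1) :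
    ∃ (s y : K) (Q : k[X][X]) (a q r e : k[X]) (P : ι → k[X][X]) (u : ι → k[X]) (ρ m N : ℕ),
      Transcendental k s ∧ 0 < Q.natDegree ∧ ev2 (algebraMap k K) s y Q = 0 ∧
      (∀ R : k[X][X], R ≠ 0 → ev2 (algebraMap k K) s y R = 0 → Q.natDegree ≤ R.natDegree) ∧
      (∀ i, ev2 (algebraMap k K) s y (P i) = aeval s (X ^ m * q) * f i) ∧
      Model Q a q r e P u ρ m N := by
  classical
  obtain ⟨s, hs0, hs⟩ := b.exists_uniformizer
  have hs1 : b.val s < 1 := by rw [hs]; exact Pool.Agent.Helper16.exp_neg_one_lt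
  have htr := b.transcendental_of_val_ne_one hs0 hs1.ne
  have := hK.finiteDimensional s htr
  obtain ⟨y, hytop, hy⟩ := exists_gen s htr b hs
  -- the minimal polynomial
  have hex : ∃ n : ℕ, ∃ R : k[X][X], R ≠ 0 ∧ ev2 (algebraMap k K) s y R = 0 ∧ R.natDegree = n := by
    obtain ⟨R, h0, h1⟩ := exists_vanishing s y htr
    exact ⟨_, R, h0, h1, rfl⟩
  obtain ⟨Q, hQ0, hQ, hQn⟩ := Nat.find_spec hex
  have hmin : ∀ R : k[X][X], R ≠ 0 → ev2 (algebraMap k K) s y R = 0 →
      Q.natDegree ≤ R.natDegree := by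
    intro R h0 h1
    rw [hQn]
    exact Nat.find_min' hex ⟨R, h0, h1, rfl⟩
  have hpos : 0 < Q.natDegree := by
    rw [Nat.pos_iff_ne_zero]
    intro h
    rw [natDegree_eq_zero] at h
    obtain ⟨g, rfl⟩ := h
    rw [ev2_C] at hQ
    have h2 : aeval s g = 0 := hQ
    have h3 := (transcendental_iff.1 htr) g h2
    rw [h3, map_zero] at hQ0
    exact hQ0 rfl
  have hD : ev2 (algebraMap k K) s y (derivative Q) ≠ 0 := by
    intro h
    have h1 : derivative Q ≠ 0 := by
      intro h2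
      rw [derivative_eq_zero] at h2
      omega
    have h2 := hmin _ h1 h
    have h3 := natDegree_derivative_lt (p := Q) (by omega)
    omega
  obtain ⟨ρ, hρ⟩ := exists_exp_neg (by simpa using hD) (val_ev2_le b hs1.le hy (derivative Q))
  obtain ⟨q₀, hq₀, hP⟩ := exists_common s y htr hytop f
  choose P hP using hP
  obtain ⟨q, hq, hqX⟩ := exists_eq_pow_rootMultiplicity_mul_and_not_dvd q₀ hq₀ 0
  rw [map_zero, sub_zero] at hq hqX
  set m := rootMultiplicity 0 q₀ with hm
  have hqc : q.coeff 0 ≠ 0 := by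
    intro h
    exact hqX (X_dvd_iff.2 h)
  set N := 2 * ρ + m + 1 with hN
  obtain ⟨a, ha⟩ := exists_approx hK b hs y hy N
  have has : b.val (aeval s a) ≤ 1 := val_eval_le b hs1.le a
  have ha' : b.val (aeval s a - y) ≤ WithZero.exp (-(N : ℤ)) := by
    rwa [← Valuation.map_neg, neg_sub]
  have hcmp : ∀ R : k[X][X], b.val (aeval s (R.eval a) - ev2 (algebraMap k K) s y R)
      ≤ WithZero.exp (-(N : ℤ)) := by
    intro R
    have h1 : aeval s (R.eval a) = ev2 (algebraMap k K) s (aeval s a) R :=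
      (ev2_eval (algebraMap k K) s a R).symm
    rw [h1]
    exact (val_ev2_sub_le b hs1.le has hy R).trans ha'
  -- the values
  obtain ⟨r, hr⟩ := X_pow_dvd b hs N (Q.eval a) (by
    have h1 := hcmp Q
    rwa [hQ, sub_zero] at h1)
  have hDv : b.val (aeval s ((derivative Q).eval a)) = WithZero.exp (-(ρ : ℤ)) := by
    have h1 := hcmp (derivative Q)
    have h2 : b.val (aeval s ((derivative Q).eval a) - ev2 (algebraMap k K) s y (derivative Q))
        < b.val (ev2 (algebraMap k K) s y (derivative Q)) := by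
      rw [hρ]
      refine lt_of_le_of_lt h1 ?_
      rw [WithZero.exp_lt_exp]
      omega
    have h3 := Valuation.map_add_eq_of_lt_right b.val h2
    rw [sub_add_cancel] at h3
    rw [h3, hρ]
  obtain ⟨e, he⟩ := X_pow_dvd b hs ρ ((derivative Q).eval a) hDv.le
  have he0 : e.coeff 0 ≠ 0 := by
    intro h
    obtain ⟨e', rfl⟩ := X_dvd_iff.2 h
    have h1 : b.val (aeval s ((derivative Q).eval a)) ≤ WithZero.exp (-((ρ + 1 : ℕ) : ℤ)) := by
      rw [he, ← mul_assoc, ← pow_succ, val_X_pow_mul b hs]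
      exact mul_le_of_le_one_right' (val_eval_le b hs1.le e')
    rw [hDv, WithZero.exp_le_exp] at h1
    push_cast at h1
    omega
  have hq0s : aeval s q₀ = aeval s (X ^ m * q) := by rw [← hq]
  have hPd : ∀ i, ∃ u : k[X], (P i).eval a = X ^ (m + 1) * u := by
    intro i
    apply X_pow_dvd b hs (m + 1)
    have h1 := hcmp (P i)
    have h2 : b.val (ev2 (algebraMap k K) s y (P i)) ≤ WithZero.exp (-((m + 1 : ℕ) : ℤ)) := by
      rw [hP, hq0s, map_mul, val_X_pow_mul b hs]
      calc WithZero.exp (-(m : ℤ)) * b.val (aeval s q) * b.val (f i)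
          ≤ WithZero.exp (-(m : ℤ)) * 1 * WithZero.exp (-1 : ℤ) :=
            mul_le_mul' (mul_le_mul' le_rfl (val_eval_le b hs1.le q)) (le_exp_of_lt_one (hf i))
        _ = WithZero.exp (-((m + 1 : ℕ) : ℤ)) := by
            rw [mul_one, ← WithZero.exp_add]
            congr 1
            push_cast
            ring
    have h3 : aeval s ((P i).eval a) = (aeval s ((P i).eval a)
        - ev2 (algebraMap k K) s y (P i)) + ev2 (algebraMap k K) s y (P i) := by ring
    rw [h3]
    refine (b.val.map_add _ _).trans (max_le (h1.trans ?_) h2)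
    rw [WithZero.exp_le_exp]
    push_cast
    omega
  choose u hu using hPd
  exact ⟨s, y, Q, a, q, r, e, P, u, ρ, m, N, htr, hpos, hQ, hmin,
    fun i => by rw [hP, hq0s], ⟨by omega, by omega, hr, he, he0, hqc, hu⟩⟩

end Pool.Agent.Helper38.TPN
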