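import Pool.Agent.Helper38.TPN.Order

/-!
# Hensel's lemma for the plane model
-/

set_option autoImplicit false

namespace Pool.Agent.Helper38.TPN

open Polynomial

variable (p : ℕ) [hp : Fact p.Prime] {A : Type} [CommRing A] (θ : A →+* ℤ_[p])

omit hp in
theorem eval₂_divX {L : Type} [CommRing L] (f : A →+* L) (t : L) (g : A[X]) :
    g.eval₂ f t = (divX g).eval₂ f t * t + f (g.coeff 0) := by
  conv_lhs => rw [← divX_mul_X_add g]
  simp

theorem norm_eval₂_eq_one (g : A[X]) (hg : IsUnit (g.coeff 0)) (t : ℤ_[p]) (ht : ‖t‖ < 1) :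
    ‖g.eval₂ θ t‖ = 1 := by
  rw [eval₂_divX]
  have h1 : ‖θ (g.coeff 0)‖ = 1 := PadicInt.isUnit_iff.1 (hg.map θ)
  have h2 : ‖(divX g).eval₂ θ t * t‖ < 1 := by
    rw [norm_mul]
    calc ‖(divX g).eval₂ θ t‖ * ‖t‖ ≤ 1 * ‖t‖ :=
          mul_le_mul_of_nonneg_right (PadicInt.norm_le_one _) (norm_nonneg _)
      _ < 1 := by rwa [one_mul]
  rw [PadicInt.norm_add_eq_max_of_ne (by rw [h1]; exact h2.ne), h1, max_eq_right h2.le]

theorem hensel_model {ι : Type} (Q : A[X][X]) (a q r e : A[X]) (P : ι → A[X][X]) (u : ι → A[X])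
    (ρ m N : ℕ) (h₁ : 2 * ρ + 1 ≤ N) (h₂ : ρ + m + 1 ≤ N) (hQ : Q.eval a = X ^ N * r)
    (hD : (derivative Q).eval a = X ^ ρ * e) (he : IsUnit (e.coeff 0)) (hq : IsUnit (q.coeff 0))
    (hP : ∀ i, (P i).eval a = X ^ (m + 1) * u i) (t : ℤ_[p]) (ht : ‖t‖ < 1) (ht0 : t ≠ 0) :
    ∃ y : ℤ_[p], ev2 θ t y Q = 0 ∧ (∀ i, ‖ev2 θ t y (P i)‖ ≤ ‖t‖ ^ (m + 1)) ∧
      ‖(X ^ m * q).eval₂ θ t‖ = ‖t‖ ^ m := by
  have htpos : 0 < ‖t‖ := norm_pos_iff.2 ht0
  set F : ℤ_[p][X] := Q.map (eval₂RingHom θ t) with hF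
  set α : ℤ_[p] := a.eval₂ θ t with hα
  have hFα : F.eval α = t ^ N * r.eval₂ θ t := by
    have h1 := ev2_eval θ t a Q
    rw [hQ, eval₂_mul, eval₂_pow, eval₂_X, ev2_apply, eval₂_eq_eval_map] at h1
    exact h1
  have hF'α : (derivative F).eval α = t ^ ρ * e.eval₂ θ t := by
    have h1 := ev2_eval θ t a (derivative Q)
    rw [hD, eval₂_mul, eval₂_pow, eval₂_X, ev2_apply, eval₂_eq_eval_map, ← derivative_map] at h1
    exact h1
  have hnF : ‖F.eval α‖ ≤ ‖t‖ ^ N := by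
    rw [hFα, norm_mul, norm_pow]
    exact mul_le_of_le_one_right (by positivity) (PadicInt.norm_le_one _)
  have hnF' : ‖(derivative F).eval α‖ = ‖t‖ ^ ρ := by
    rw [hF'α, norm_mul, norm_pow, norm_eval₂_eq_one p θ e he t ht, mul_one]
  obtain ⟨y, hy, hyα, -, -⟩ := hensels_lemma (F := F) (a := α) (by
    rw [coe_aeval_eq_eval, hnF']
    refine lt_of_le_of_lt hnF ?_
    rw [← pow_mul]
    exact pow_lt_pow_right_of_lt_one₀ htpos ht (by omega))
  rw [coe_aeval_eq_eval] at hy hyα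
  rw [hnF'] at hyα
  -- the refined bound
  have hdist : ‖y - α‖ ≤ ‖t‖ ^ (m + 1) := by
    obtain ⟨c, hc⟩ := binomExpansion F α (y - α)
    rw [add_sub_cancel, hy] at hc
    have h1 : F.eval α = -((y - α) * ((derivative F).eval α + c * (y - α))) := by
      linear_combination -hc
    have h2 : ‖c * (y - α)‖ < ‖(derivative F).eval α‖ := by
      rw [norm_mul, hnF']
      calc ‖c‖ * ‖y - α‖ ≤ 1 * ‖y - α‖ :=
            mul_le_mul_of_nonneg_right (PadicInt.norm_le_one _) (norm_nonneg _)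
        _ < ‖t‖ ^ ρ := by rwa [one_mul]
    have h3 : ‖(derivative F).eval α + c * (y - α)‖ = ‖t‖ ^ ρ := by
      rw [PadicInt.norm_add_eq_max_of_ne h2.ne', max_eq_left h2.le, hnF']
    have h4 : ‖y - α‖ * ‖t‖ ^ ρ ≤ ‖t‖ ^ (m + 1) * ‖t‖ ^ ρ := by
      rw [← h3, ← norm_mul, ← norm_neg, ← h1, h3, ← pow_add]
      exact hnF.trans (pow_le_pow_of_le_one htpos.le ht.le (by omega))
    exact le_of_mul_le_mul_right h4 (by positivity)
  refine ⟨y, ?_, ?_, ?_⟩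
  · rw [ev2_apply, eval₂_eq_eval_map]
    exact hy
  · intro i
    obtain ⟨c, hc⟩ := sub_dvd_ev2 θ t y α (P i)
    have h1 : ev2 θ t α (P i) = t ^ (m + 1) * (u i).eval₂ θ t := by
      rw [hα, ev2_eval, hP, eval₂_mul, eval₂_pow, eval₂_X]
    have h2 : ev2 θ t y (P i) = (y - α) * c + t ^ (m + 1) * (u i).eval₂ θ t := by
      rw [← h1, ← hc]; ring
    rw [h2]
    refine (PadicInt.nonarchimedean _ _).trans (max_le ?_ ?_)
    · rw [norm_mul]
      exact (mul_le_of_le_one_right (norm_nonneg _) (PadicInt.norm_le_one _)).trans hdist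
    · rw [norm_mul, norm_pow]
      exact mul_le_of_le_one_right (by positivity) (PadicInt.norm_le_one _)
  · rw [eval₂_mul, eval₂_pow, eval₂_X, norm_mul, norm_pow, norm_eval₂_eq_one p θ q hq t ht, mul_one]

end Pool.Agent.Helper38.TPN
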