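import Pool.Agent.Helper38.TPN.Order

/-!
# A field with embeddings into the function field and into the `p`-adic numbers
-/

set_option autoImplicit false

namespace Pool.Agent.Helper38.TPN

open Polynomial IntermediateField

theorem exists_hom {k K : Type} [Field k] [Field K] [Algebra k K] (p : ℕ) [hp : Fact p.Prime]
    {A : Type} [CommRing A] [IsDomain A] (j : A →+* k) (hj : Function.Injective j)
    (θ : A →+* ℤ_[p]) (s y : K) (hs : Transcendental k s) (t w : ℤ_[p])
    (ht : ∀ g : A[X], g ≠ 0 → g.eval₂ θ t ≠ 0) (Q : A[X][X])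
    (hQ : 0 < Q.natDegree)
    (hQy : ev2 ((algebraMap k K).comp j) s y Q = 0)
    (hmin : ∀ R : k[X][X], R ≠ 0 → ev2 (algebraMap k K) s y R = 0 →
      Q.natDegree ≤ R.natDegree)
    (hQw : ev2 θ t w Q = 0) :
    ∃ (K₁ : Type) (_ : Field K₁) (κ : K₁ →+* K) (ι : K₁ →+* ℚ_[p]) (γ : A[X] →+* K₁) (η : K₁),
      (∀ g, κ (γ g) = g.eval₂ ((algebraMap k K).comp j) s) ∧
      (∀ g, ι (γ g) = ((g.eval₂ θ t : ℤ_[p]) : ℚ_[p])) ∧ κ η = y ∧ ι η = (w : ℚ_[p]) := by
  classical
  let σ : A[X] →+* K := eval₂RingHom ((algebraMap k K).comp j) s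
  have hσ : Function.Injective σ := by
    rw [injective_iff_map_eq_zero]
    intro g hg
    have h1 : aeval s (g.map j) = 0 := by
      have h2 : g.eval₂ ((algebraMap k K).comp j) s = 0 := hg
      rw [← eval₂_map] at h2
      exact h2
    have h2 := (transcendental_iff.1 hs) _ h1
    exact map_injective j hj (by rw [h2, Polynomial.map_zero])
  let τ : A[X] →+* ℚ_[p] := (PadicInt.Coe.ringHom (p := p)).comp (eval₂RingHom θ t)
  have hτ : Function.Injective τ := by
    rw [injective_iff_map_eq_zero]
    intro g hg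
    by_contra h0
    apply ht g h0
    have h2 : ((g.eval₂ θ t : ℤ_[p]) : ℚ_[p]) = 0 := hg
    exact Subtype.ext h2
  let E := FractionRing A[X]
  let _ : Algebra E K := (IsFractionRing.lift hσ : E →+* K).toAlgebra
  let _ : Algebra E ℚ_[p] := (IsFractionRing.lift hτ : E →+* ℚ_[p]).toAlgebra
  have hσE : ∀ g : A[X], algebraMap E K (algebraMap A[X] E g) = σ g := fun g =>
    IsFractionRing.lift_algebraMap hσ g
  have hτE : ∀ g : A[X], algebraMap E ℚ_[p] (algebraMap A[X] E g) = τ g := fun g =>
    IsFractionRing.lift_algebraMap hτ g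
  -- the polynomial over `E`
  set QE : E[X] := Q.map (algebraMap A[X] E) with hQE
  have hQEd : QE.natDegree = Q.natDegree :=
    natDegree_map_eq_of_injective (IsFractionRing.injective A[X] E) Q
  have hQE0 : QE ≠ 0 := by
    intro h
    rw [h, natDegree_zero] at hQEd
    omega
  have hyQE : aeval y QE = 0 := by
    have h1 : (algebraMap E K).comp (algebraMap A[X] E) = σ := RingHom.ext hσE
    rw [aeval_def, hQE, eval₂_map, h1]
    exact hQy
  have hwQE : aeval (w : ℚ_[p]) QE = 0 := by
    have h1 : (algebraMap E ℚ_[p]).comp (algebraMap A[X] E) = τ := RingHom.ext hτE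
    rw [aeval_def, hQE, eval₂_map, h1]
    have h2 := hom_eval₂ Q (eval₂RingHom θ t) (PadicInt.Coe.ringHom (p := p)) w
    have h3 : Q.eval₂ (eval₂RingHom θ t) w = 0 := hQw
    rw [h3, map_zero] at h2
    exact h2.symm
  have halg : IsAlgebraic E y := ⟨QE, hQE0, hyQE⟩
  have hint : IsIntegral E y := halg.isIntegral
  -- the degree of the minimal polynomial
  have hdeg : Q.natDegree ≤ (minpoly E y).natDegree := by
    obtain ⟨b, hb, hg⟩ := IsLocalization.integerNormalization_spec (nonZeroDivisors A[X])
      (minpoly E y)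
    set R := IsLocalization.integerNormalization (nonZeroDivisors A[X]) (minpoly E y) with hR
    have hb0 : b ≠ 0 := nonZeroDivisors.ne_zero hb
    have hR0 : R ≠ 0 := by
      intro h
      rw [hR, IsLocalization.integerNormalization_eq_zero_iff le_rfl] at h
      exact minpoly.ne_zero hint h
    have hRd : R.natDegree = (minpoly E y).natDegree := by
      rw [← natDegree_map_eq_of_injective (IsFractionRing.injective A[X] E) R, hg,
        ← algebraMap_smul E b (minpoly E y)]
      exact natDegree_smul _ (by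
        intro h
        exact hb0 (IsFractionRing.injective A[X] E (by rw [h, map_zero])))
    have hRy : ev2 ((algebraMap k K).comp j) s y R = 0 := by
      have h1 : (algebraMap E K).comp (algebraMap A[X] E) = σ := RingHom.ext hσE
      have h2 : (R.map (algebraMap A[X] E)).eval₂ (algebraMap E K) y = 0 := by
        rw [hg, ← algebraMap_smul E b (minpoly E y)]
        change aeval y _ = 0
        rw [map_smul, minpoly.aeval, smul_zero]
      rw [eval₂_map, h1] at h2
      exact h2
    rw [← ev2_map] at hRy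
    have hinj : Function.Injective (mapRingHom j : A[X] →+* k[X]) := map_injective j hj
    have h3 := hmin (R.map (mapRingHom j)) (by
      intro h
      exact hR0 (map_injective _ hinj (by rw [h, Polynomial.map_zero]))) hRy
    rwa [natDegree_map_eq_of_injective hinj, hRd] at h3
  have hroot : aeval (w : ℚ_[p]) (minpoly E y) = 0 := by
    obtain ⟨D, hD⟩ := minpoly.dvd E y hyQE
    have hD0 : D ≠ 0 := by
      rintro rfl
      rw [mul_zero] at hD
      exact hQE0 hD
    have h1 : D.natDegree = 0 := by
      have h2 := congrArg natDegree hD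
      rw [natDegree_mul (minpoly.ne_zero hint) hD0, hQEd] at h2
      omega
    obtain ⟨c, rfl⟩ := natDegree_eq_zero.1 h1
    rw [hD, map_mul, aeval_C] at hwQE
    refine (mul_eq_zero.1 hwQE).resolve_right ?_
    intro h
    apply hD0
    rw [(map_eq_zero _).1 h, map_zero]
  have hmem : (w : ℚ_[p]) ∈ (minpoly E y).aroots ℚ_[p] := by
    rw [mem_aroots]
    exact ⟨minpoly.ne_zero hint, hroot⟩
  let φ : E⟮y⟯ →ₐ[E] ℚ_[p] := (algHomAdjoinIntegralEquiv E hint).symm ⟨_, hmem⟩
  refine ⟨E⟮y⟯, inferInstance, E⟮y⟯.val.toRingHom, φ.toRingHom,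
    (algebraMap E E⟮y⟯).comp (algebraMap A[X] E), AdjoinSimple.gen E y, ?_, ?_, ?_, ?_⟩
  · intro g
    exact hσE g
  · intro g
    have h1 : φ (algebraMap E E⟮y⟯ (algebraMap A[X] E g)) = _ := φ.commutes _
    exact h1.trans (hτE g)
  · rfl
  · exact algHomAdjoinIntegralEquiv_symm_apply_gen E hint ⟨_, hmem⟩

end Pool.Agent.Helper38.TPN
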