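import Pool.Agent.Helper33.SS.Emb
import Pool.Agent.Helper37.DvrPadic
import Pool.Agent.Helper38.Dml.PadicExt

/-!
# A ring of coefficients inside the `p`-adic integers
-/

set_option autoImplicit false

open Cardinal

namespace Pool.Agent.Helper38.TPN

theorem exists_package {k : Type} [Field k] [CharZero k] (S : Finset k) :
    ∃ (p : ℕ) (hp : Fact p.Prime) (A : Type) (_ : CommRing A) (_ : IsDomain A)
      (_ : Countable A) (j : A →+* k) (θ : A →+* ℤ_[p]), Function.Injective j ∧
        Function.Injective θ ∧ ∀ c ∈ S, c ∈ Set.range j := by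
  classical
  let K₀ := IntermediateField.adjoin ℚ (S : Set k)
  have hfg : (⊤ : IntermediateField ℚ K₀).FG := by
    rw [IntermediateField.fg_top_iff]
    exact IntermediateField.essFiniteType_iff.2 ⟨S, rfl⟩
  let T : Finset K₀ := Finset.univ.image (fun c : S => (⟨c, IntermediateField.subset_adjoin ℚ _ c.2⟩ : K₀))
  obtain ⟨p, -, hp, φ, hφ⟩ := Pool.Agent.Helper33.SS.exists_padic_int hfg T 0
  have hfact := Fact.mk hp
  have hcount : Countable K₀ := by
    have h1 := IntermediateField.cardinalMk_adjoin_le ℚ (S : Set k)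
    rw [← mk_le_aleph0_iff]
    refine h1.trans ?_
    simp
  refine ⟨p, hfact, Pool.Agent.Helper37.padicRing p φ, inferInstance, inferInstance, inferInstance,
    K₀.val.toRingHom.comp (Pool.Agent.Helper37.padicRing p φ).subtype,
    Pool.Agent.Helper37.padicRingHom p φ, ?_, ?_, ?_⟩
  · intro x y h
    exact Subtype.ext (Subtype.ext h)
  · intro x y h
    have h2 := congrArg (fun z : ℤ_[p] => (z : ℚ_[p])) h
    exact Subtype.ext (φ.injective h2)
  · intro c hc
    have h1 : (⟨c, IntermediateField.subset_adjoin ℚ _ hc⟩ : K₀) ∈ T :=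
      Finset.mem_image.2 ⟨⟨c, hc⟩, Finset.mem_univ _, rfl⟩
    exact ⟨⟨⟨c, IntermediateField.subset_adjoin ℚ _ hc⟩, hφ _ h1⟩, rfl⟩

/-- small transcendental elements -/
theorem exists_small (p : ℕ) [hp : Fact p.Prime] {A : Type} [CommRing A] [IsDomain A] [Countable A]
    (θ : A →+* ℤ_[p]) (hθ : Function.Injective θ) :
    ∃ t : ℤ_[p], ‖t‖ < 1 ∧ ∀ g : Polynomial A, g ≠ 0 → g.eval₂ θ t ≠ 0 := by
  classical
  have : Countable (Polynomial A) := by
    rw [← mk_le_aleph0_iff]
    exact Polynomial.cardinalMk_le_max.trans (max_le (mk_le_aleph0_iff.2 inferInstance) le_rfl)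
  -- the set of roots is countable
  have hc : (⋃ g ∈ {g : Polynomial A | g ≠ 0}, {t : ℤ_[p] | g.eval₂ θ t = 0}).Countable := by
    apply Set.Countable.biUnion (Set.to_countable _)
    intro g hg
    apply Set.Finite.countable
    have h1 : g.map θ ≠ 0 := by
      intro h
      apply hg
      exact Polynomial.map_injective θ hθ (by rw [h, Polynomial.map_zero])
    have h2 := Polynomial.finite_setOfPred_isRoot h1
    refine h2.subset ?_
    intro t ht
    have ht' : g.eval₂ θ t = 0 := ht
    change (g.map θ).eval t = 0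
    rw [Polynomial.eval_map, ht']
  -- the ball is uncountable
  have hnc : ¬ {t : ℤ_[p] | ‖t‖ < 1}.Countable := by
    intro h
    have h1 : (Set.range (fun x : ℤ_[p] => (p : ℤ_[p]) * x)).Countable := by
      refine h.mono ?_
      rintro _ ⟨x, rfl⟩
      change ‖(p : ℤ_[p]) * x‖ < 1
      rw [norm_mul]
      calc ‖(p : ℤ_[p])‖ * ‖x‖ ≤ ‖(p : ℤ_[p])‖ * 1 := by
            apply mul_le_mul_of_nonneg_left x.norm_le_one (norm_nonneg _)
        _ < 1 := by
            rw [mul_one, PadicInt.norm_p]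
            exact inv_lt_one_of_one_lt₀ (by exact_mod_cast hp.out.one_lt)
    have h2 : Function.Injective (fun x : ℤ_[p] => (p : ℤ_[p]) * x) := by
      intro x y hxy
      exact mul_left_cancel₀ (by exact_mod_cast hp.out.ne_zero) hxy
    have h3 : Countable ℤ_[p] := by
      have := h1.to_subtype
      exact (Set.rangeFactorization_injective.2 h2).countable
    have h4 : Countable ℚ_[p] := by
      have h5 : Function.Surjective (fun q : ℤ_[p] × ℕ => (q.1 : ℚ_[p]) / (p : ℚ_[p]) ^ q.2) := by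
        intro x
        have hn : ∃ n : ℕ, ‖(p : ℚ_[p]) ^ n * x‖ ≤ 1 := by
          have hp1 : ((p : ℝ)⁻¹) < 1 := inv_lt_one_of_one_lt₀ (by exact_mod_cast hp.out.one_lt)
          obtain ⟨n, hn⟩ := exists_pow_lt_of_lt_one (y := (p : ℝ)⁻¹) (x := (‖x‖ + 1)⁻¹)
            (by positivity) hp1
          refine ⟨n, ?_⟩
          rw [norm_mul, norm_pow, Padic.norm_p]
          calc ((p : ℝ)⁻¹) ^ n * ‖x‖ ≤ (‖x‖ + 1)⁻¹ * ‖x‖ :=
                mul_le_mul_of_nonneg_right hn.le (norm_nonneg _)
            _ ≤ 1 := by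
                rw [inv_mul_le_iff₀ (by positivity)]
                linarith
        obtain ⟨n, hn⟩ := hn
        refine ⟨(⟨(p : ℚ_[p]) ^ n * x, hn⟩, n), ?_⟩
        change (p : ℚ_[p]) ^ n * x / (p : ℚ_[p]) ^ n = x
        rw [mul_div_cancel_left₀]
        exact pow_ne_zero _ (by exact_mod_cast hp.out.ne_zero)
      exact h5.countable
    have h5 := continuum_le_cardinal_of_nontriviallyNormedField ℚ_[p]
    have h6 : #ℚ_[p] ≤ ℵ₀ := mk_le_aleph0_iff.2 h4
    exact absurd (h5.trans h6) (not_le.2 aleph0_lt_continuum)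
  by_contra hcon
  push Not at hcon
  apply hnc
  refine hc.mono ?_
  intro t ht
  obtain ⟨g, hg, hgt⟩ := hcon t ht
  exact Set.mem_iUnion₂.2 ⟨g, hg, hgt⟩

end Pool.Agent.Helper38.TPN
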