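import Pool.Agent.Helper30.TP.PtHeight

/-!
# Orders of polynomials in a uniformizer
-/

set_option autoImplicit false

namespace Pool.Agent.Helper38.TPN

open Polynomial
open Pool.Agent.Helper16 (Place IsFunctionField)

section ev

variable {A B L M : Type} [CommRing A] [CommRing B] [CommRing L] [CommRing M]

/-- The evaluation of polynomials in two variables. -/
noncomputable def ev2 (f : A →+* L) (s y : L) : A[X][X] →+* L :=
  eval₂RingHom (eval₂RingHom f s) y

theorem ev2_apply (f : A →+* L) (s y : L) (P : A[X][X]) :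
    ev2 f s y P = P.eval₂ (eval₂RingHom f s) y := rfl

theorem ev2_C (f : A →+* L) (s y : L) (g : A[X]) : ev2 f s y (C g) = g.eval₂ f s := by
  rw [ev2_apply, eval₂_C]; rfl

theorem ev2_X (f : A →+* L) (s y : L) : ev2 f s y X = y := by
  rw [ev2_apply, eval₂_X]

theorem ev2_eval (f : A →+* L) (s : L) (a : A[X]) (P : A[X][X]) :
    ev2 f s (a.eval₂ f s) P = (P.eval a).eval₂ f s :=
  eval₂_at_apply (eval₂RingHom f s) a

theorem ev2_comp (f : A →+* L) (g : L →+* M) (s y : L) (P : A[X][X]) :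
    ev2 (g.comp f) (g s) (g y) P = g (ev2 f s y P) := by
  have h : ev2 (g.comp f) (g s) (g y) = g.comp (ev2 f s y) := by
    apply Polynomial.ringHom_ext'
    · apply Polynomial.ringHom_ext'
      · ext x
        simp [ev2]
      · simp [ev2]
    · simp [ev2]
  rw [h]; rfl

theorem ev2_map (j : B →+* A) (f : A →+* L) (s y : L) (P : B[X][X]) :
    ev2 f s y (P.map (mapRingHom j)) = ev2 (f.comp j) s y P := by
  have h : (ev2 f s y).comp (mapRingHom (mapRingHom j)) = ev2 (f.comp j) s y := by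
    apply Polynomial.ringHom_ext'
    · apply Polynomial.ringHom_ext'
      · ext x
        simp [ev2]
      · simp [ev2]
    · simp [ev2]
  rw [← h]; rfl

theorem sub_dvd_ev2 (f : A →+* L) (s y a : L) (P : A[X][X]) :
    y - a ∣ ev2 f s y P - ev2 f s a P := by
  rw [ev2_apply, ev2_apply, eval₂_eq_eval_map, eval₂_eq_eval_map]
  exact sub_dvd_eval_sub y a _

end ev

section val

variable {k K : Type} [Field k] [Field K] [Algebra k K]

theorem le_exp_of_lt_one {x : WithZero (Multiplicative ℤ)} (h : x < 1) :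
    x ≤ WithZero.exp (-1 : ℤ) := by
  by_cases hx : x = 0
  · rw [hx]; exact zero_le
  · obtain ⟨n, rfl⟩ : ∃ n : ℤ, x = WithZero.exp n := ⟨WithZero.log x, (WithZero.exp_log hx).symm⟩
    rw [← WithZero.exp_zero, WithZero.exp_lt_exp] at h
    rw [WithZero.exp_le_exp]
    omega

theorem val_ev2_le (b : Place k K) {s y : K} (hs : b.val s ≤ 1) (hy : b.val y ≤ 1)
    (P : k[X][X]) : b.val (ev2 (algebraMap k K) s y P) ≤ 1 := by
  have h := ev2_comp (algebraMap k b.ring) (b.ring.val : b.ring →+* K) ⟨s, hs⟩ ⟨y, hy⟩ P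
  have h1 : (b.ring.val : b.ring →+* K).comp (algebraMap k b.ring) = algebraMap k K := rfl
  rw [h1] at h
  change ev2 (algebraMap k K) s y P = _ at h
  rw [h]
  exact (ev2 (algebraMap k b.ring) ⟨s, hs⟩ ⟨y, hy⟩ P).2

theorem val_eval_le (b : Place k K) {s : K} (hs : b.val s ≤ 1) (g : k[X]) :
    b.val (aeval s g) ≤ 1 := by
  have h := val_ev2_le b hs (y := 0) (by simp) (C g)
  rwa [ev2_C] at h

theorem val_ev2_sub_le (b : Place k K) {s y a : K} (hs : b.val s ≤ 1) (hy : b.val y ≤ 1)
    (ha : b.val a ≤ 1) (P : k[X][X]) :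
    b.val (ev2 (algebraMap k K) s y P - ev2 (algebraMap k K) s a P) ≤ b.val (y - a) := by
  have h := ev2_comp (algebraMap k b.ring) (b.ring.val : b.ring →+* K) ⟨s, hs⟩ ⟨y, hy⟩ P
  have h' := ev2_comp (algebraMap k b.ring) (b.ring.val : b.ring →+* K) ⟨s, hs⟩ ⟨a, ha⟩ P
  have h1 : (b.ring.val : b.ring →+* K).comp (algebraMap k b.ring) = algebraMap k K := rfl
  rw [h1] at h h'
  change ev2 (algebraMap k K) s y P = _ at h
  change ev2 (algebraMap k K) s a P = _ at h'
  obtain ⟨c, hc⟩ := sub_dvd_ev2 (algebraMap k b.ring) ⟨s, hs⟩ ⟨y, hy⟩ ⟨a, ha⟩ P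
  have h2 : ev2 (algebraMap k K) s y P - ev2 (algebraMap k K) s a P = (y - a) * (c : K) := by
    rw [h, h', ← map_sub, hc, map_mul]
    rfl
  rw [h2, map_mul]
  exact mul_le_of_le_one_right' c.2

theorem val_aeval_eq_one (b : Place k K) {s : K} (hs : b.val s < 1) (g : k[X])
    (hg : g.coeff 0 ≠ 0) : b.val (aeval s g) = 1 := by
  have h1 : aeval s g = aeval s (divX g) * s + algebraMap k K (g.coeff 0) := by
    conv_lhs => rw [← divX_mul_X_add g]
    simp
  have h2 : b.val (aeval s (divX g) * s) < 1 := by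
    rw [map_mul]
    exact lt_of_le_of_lt (mul_le_of_le_one_left' (val_eval_le b hs.le _)) hs
  have h3 : b.val (algebraMap k K (g.coeff 0)) = 1 := b.triv _ hg
  rw [h1, Valuation.map_add_eq_of_lt_right _ (by rwa [h3]), h3]

theorem X_pow_dvd (b : Place k K) {s : K} (hs : b.val s = WithZero.exp (-1 : ℤ)) (m : ℕ)
    (g : k[X]) (h : b.val (aeval s g) ≤ WithZero.exp (-(m : ℤ))) : X ^ m ∣ g := by
  have hs1 : b.val s < 1 := by rw [hs]; exact Pool.Agent.Helper16.exp_neg_one_lt
  induction m with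
  | zero => simp
  | succ m ih =>
    obtain ⟨g', rfl⟩ := ih (h.trans (by rw [WithZero.exp_le_exp]; push_cast; omega))
    rw [pow_succ]
    apply mul_dvd_mul_left
    rw [X_dvd_iff]
    by_contra hne
    rw [map_mul, map_pow, aeval_X, map_mul, map_pow, val_aeval_eq_one b hs1 g' hne, mul_one, hs,
      ← WithZero.exp_nsmul, WithZero.exp_le_exp] at h
    simp at h

theorem val_X_pow_mul (b : Place k K) {s : K} (hs : b.val s = WithZero.exp (-1 : ℤ)) (m : ℕ)
    (g : k[X]) : b.val (aeval s (X ^ m * g)) = WithZero.exp (-(m : ℤ)) * b.val (aeval s g) := by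
  rw [map_mul, map_pow, aeval_X, map_mul, map_pow, hs, ← WithZero.exp_nsmul]
  simp

theorem exists_approx [IsAlgClosed k] (hK : IsFunctionField k K) (b : Place k K) {s : K}
    (hs : b.val s = WithZero.exp (-1 : ℤ)) (y : K) (hy : b.val y ≤ 1) (N : ℕ) :
    ∃ a : k[X], b.val (y - aeval s a) ≤ WithZero.exp (-(N : ℤ)) := by
  have hs0 : s ≠ 0 := by
    rintro rfl
    rw [map_zero] at hs
    exact WithZero.exp_ne_zero hs.symm
  induction N with
  | zero => exact ⟨0, by simpa using hy⟩
  | succ N ih =>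
    obtain ⟨a, ha⟩ := ih
    have hu : b.val ((y - aeval s a) / s ^ N) ≤ 1 := by
      rw [map_div₀, map_pow, hs, ← WithZero.exp_nsmul]
      rw [div_le_one₀ (by exact WithZero.exp_pos)]
      simpa using ha
    obtain ⟨c, hc⟩ := Pool.Agent.Helper30.TP.exists_residue hK b _ hu
    refine ⟨a + C c * X ^ N, ?_⟩
    have h1 : y - aeval s (a + C c * X ^ N)
        = s ^ N * ((y - aeval s a) / s ^ N - algebraMap k K c) := by
      rw [mul_sub, mul_div_cancel₀ _ (pow_ne_zero _ hs0)]
      simp only [map_add, map_mul, aeval_C, map_pow, aeval_X]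
      ring
    rw [h1, map_mul, map_pow, hs, ← WithZero.exp_nsmul]
    calc WithZero.exp (N • (-1 : ℤ)) * b.val ((y - aeval s a) / s ^ N - algebraMap k K c)
        ≤ WithZero.exp (N • (-1 : ℤ)) * WithZero.exp (-1 : ℤ) :=
          mul_le_mul_right (le_exp_of_lt_one hc) _
      _ = WithZero.exp (-((N + 1 : ℕ) : ℤ)) := by
          rw [← WithZero.exp_add]
          congr 1
          push_cast
          simp
          ring

end val

end Pool.Agent.Helper38.TPN
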